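import Pool.Agent.H62.HIL.Tg
import Pool.Agent.H62.HIL.Norm

/-!
# MP_70ba79_ag, THEOREM S, row DC1: the field of the curve `G = 0`
-/

set_option autoImplicit false

open MvPolynomial SC Pool.Agent.H27.LV Pool.Agent.H92.SF Pool.Agent.H3.SF

namespace Pool.Agent.H30.SFH

/-- the ideal of the curve -/
def crvI {k F : Type} [Field k] [Field F] [Algebra k F] (u : Fin 3 → F) (G : F) :
    Ideal (Bb k u) where
  carrier := {b | Itg k u ((b : F) / G)}
  add_mem' := by
    intro a b ha hb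
    have h := (Bb k u).add_mem ha hb
    have e : (((a + b : Bb k u)) : F) / G = (a : F) / G + (b : F) / G := by
      push_cast
      ring
    change Itg k u (((a + b : Bb k u) : F) / G)
    rw [e]
    exact h
  zero_mem' := by
    change Itg k u (((0 : Bb k u) : F) / G)
    have e : ((0 : Bb k u) : F) / G = 0 := by simp
    rw [e]
    exact (Bb k u).zero_mem
  smul_mem' := by
    intro c b hb
    have h := (Bb k u).mul_mem c.2 hb
    have e : (((c • b : Bb k u)) : F) / G = (c : F) * ((b : F) / G) := by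
      rw [smul_eq_mul]
      push_cast
      ring
    change Itg k u (((c • b : Bb k u) : F) / G)
    rw [e]
    exact h

/-- the quotient field of a prime ideal -/
theorem quot_field (k B : Type) [Field k] [CommRing B] [Algebra k B] (p : Ideal B)
    (hp : p.IsPrime) : ∃ (LL : Type) (_ : Field LL) (_ : Algebra k LL) (π : B →ₐ[k] LL),
    (∀ b, π b = 0 ↔ b ∈ p) ∧ ∀ z : LL, ∃ b c : B, π c ≠ 0 ∧ z * π c = π b := by
  refine ⟨FractionRing (B ⧸ p), inferInstance, inferInstance,
    (IsScalarTower.toAlgHom k (B ⧸ p) (FractionRing (B ⧸ p))).comp (Ideal.Quotient.mkₐ k p),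
    ?_, ?_⟩
  · intro b
    change algebraMap (B ⧸ p) (FractionRing (B ⧸ p)) (Ideal.Quotient.mk _ b) = 0 ↔ b ∈ p
    rw [IsFractionRing.to_map_eq_zero_iff, Ideal.Quotient.eq_zero_iff_mem]
  · intro z
    obtain ⟨x, y, hy, hxy⟩ := IsFractionRing.div_surjective (A := B ⧸ p) z
    obtain ⟨b, rfl⟩ := Ideal.Quotient.mk_surjective x
    obtain ⟨c, rfl⟩ := Ideal.Quotient.mk_surjective y
    have hc : algebraMap (B ⧸ p) (FractionRing (B ⧸ p)) (Ideal.Quotient.mk _ c) ≠ 0 := by
      rw [Ne, IsFractionRing.to_map_eq_zero_iff]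
      exact nonZeroDivisors.ne_zero hy
    refine ⟨b, c, hc, ?_⟩
    change z * algebraMap (B ⧸ p) (FractionRing (B ⧸ p)) (Ideal.Quotient.mk _ c) =
        algebraMap (B ⧸ p) (FractionRing (B ⧸ p)) (Ideal.Quotient.mk _ b)
    rw [← hxy, div_mul_cancel₀ _ hc]

theorem pf_DC1 (_h1 : T_SF1) : Pool.Agent.H62.HIL.T_DC1 := by
  intro k F _ _ _ _ _ u dd δ j0 c0 J hS m G hm hG
  have hne : crvI (k := k) u G ≠ ⊤ := by
    intro htop
    have h2 : (1 : Bb k u) ∈ crvI (k := k) u G := by
      rw [htop]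
      trivial
    have h3 : Itg k u (((1 : Bb k u) : F) / G) := h2
    have h4 : Hm k (eu u dd) (-(m : ℤ)) (((1 : Bb k u) : F) / G) := by
      have h5 := Pool.Agent.H62.HIL.hm_div (Pool.Agent.H62.HIL.hm_one (κ := k) (E := eu u dd))
        hG.hom hG.ne
      rw [zero_sub] at h5
      exact h5
    have h6 : ((1 : Bb k u) : F) / G ∈ BB k u (eu u dd) (-(m : ℤ)) := ⟨h3, h4⟩
    rw [hS.neg _ (by omega), Submodule.mem_bot] at h6
    rw [div_eq_zero_iff] at h6
    rcases h6 with h7 | h7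
    · exact one_ne_zero h7
    · exact hG.ne h7
  have hprime : (crvI (k := k) u G).IsPrime := by
    refine ⟨hne, ?_⟩
    intro a b hab
    have h2 : Itg k u (((a * b : Bb k u) : F) / G) := hab
    have h3 := hG.prm (a : F) (b : F) a.2 b.2 h2
    exact h3
  obtain ⟨LL, i1, i2, π, h2, h3⟩ := quot_field k (Bb k u) (crvI (k := k) u G) hprime
  exact ⟨LL, i1, i2, π, ⟨h2, h3⟩⟩

end Pool.Agent.H30.SFH
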