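import Pool.Agent.H30.SFH.DENa

/-!
# MP_70ba79_ag, THEOREM S, row DEN: common denominator
-/

set_option autoImplicit false

open MvPolynomial SC Pool.Agent.H27.LV Pool.Agent.H92.SF Pool.Agent.H3.SF

namespace Pool.Agent.H30.SFH

/-- the norm of `f + γ` -/
theorem norm_shift {Q F : Type} [Field Q] [Field F] [Algebra Q F] [FiniteDimensional Q F]
    (γ : F) (f : Q) : ∃ m : ℕ, 1 ≤ m ∧ Algebra.norm Q (algebraMap Q F f + γ) =
      ((-1) ^ (minpoly Q γ).natDegree * (minpoly Q γ).eval (-f)) ^ m := by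
  obtain ⟨x, hx0⟩ : ∃ x : F, x = algebraMap Q F f + γ := ⟨_, rfl⟩
  have hx : IsIntegral Q x := Algebra.IsIntegral.isIntegral x
  have hmin : minpoly Q x = (minpoly Q γ).comp (Polynomial.X - Polynomial.C f) := by
    rw [hx0, add_comm]
    exact minpoly.add_algebraMap γ f
  refine ⟨Module.finrank (IntermediateField.adjoin Q {x}) F, Module.finrank_pos, ?_⟩
  rw [← hx0, Algebra.norm_eq_norm_adjoin]
  have h1 := Algebra.PowerBasis.norm_gen_eq_coeff_zero_minpoly
    (IntermediateField.adjoin.powerBasis hx)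
  rw [IntermediateField.adjoin.powerBasis_gen hx, IntermediateField.minpoly_gen,
    IntermediateField.adjoin.powerBasis_dim] at h1
  rw [h1, hmin, Polynomial.natDegree_comp, Polynomial.natDegree_X_sub_C, mul_one,
    Polynomial.coeff_zero_eq_eval_zero, Polynomial.eval_comp, Polynomial.eval_sub,
    Polynomial.eval_X, Polynomial.eval_C, zero_sub]

/-- homogeneous polynomials in one variable -/
theorem one_var {k : Type} [Field k] {n : ℕ} (hn : n = 1) {p : MvPolynomial (Fin n) k} {e : ℕ}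
    (hp : p.IsHomogeneous e) : ∃ (m : Fin n →₀ ℕ) (a : k), m = Finsupp.single ⟨0, by omega⟩ e ∧
      p = monomial m a := by
  classical
  subst hn
  refine ⟨_, coeff (Finsupp.single 0 e) p, rfl, ?_⟩
  ext m
  rw [coeff_monomial]
  by_cases hm : m = Finsupp.single 0 e
  · rw [hm]
    exact (if_pos rfl).symm
  · have h1 : (Finsupp.single (⟨0, by omega⟩ : Fin 1) e : Fin 1 →₀ ℕ) ≠ m := fun h => hm h.symm
    rw [if_neg h1]
    by_contra hne
    have h2 := hp hne
    have h2' : m.degree = e := by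
      rw [Finsupp.degree_eq_weight_one]
      exact h2
    apply hm
    refine Finsupp.ext fun i => ?_
    have hi : i = 0 := Subsingleton.elim _ _
    rw [hi, Finsupp.single_eq_same]
    have h3 : m.degree = m 0 := by
      rw [Finsupp.degree_eq_sum]
      simp
    rw [← h3]
    exact h2'

/-- in one variable a form divides the forms of larger degree -/
theorem one_var_dvd {k : Type} [Field k] {n : ℕ} (hn : n = 1) {p q : MvPolynomial (Fin n) k}
    {e h : ℕ} (hp : p.IsHomogeneous e) (hq : q.IsHomogeneous h) (hq0 : q ≠ 0) (hle : h ≤ e) :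
    q ∣ p := by
  obtain ⟨m, a, hm, hpa⟩ := one_var hn hp
  obtain ⟨m', b, hm', hqb⟩ := one_var hn hq
  have hb : b ≠ 0 := by
    rintro rfl
    exact hq0 (by rw [hqb, map_zero])
  refine ⟨monomial (Finsupp.single ⟨0, by omega⟩ (e - h)) (b⁻¹ * a), ?_⟩
  rw [hpa, hqb, monomial_mul, hm, hm', ← Finsupp.single_add, Nat.add_sub_cancel' hle,
    mul_inv_cancel_left₀ hb]

theorem pf_DEN (h1 : T_MPH) (h2 : T_HMP) (_h3 : T_NGD) : T_DEN := by
  classical
  intro k F _ _ _ _ n d v E hd hn e γ hγ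
  have hfd := fd_of_hd hd
  have hF : CharZero F := charZero_of_injective_algebraMap (algebraMap k F).injective
  have hQ : CharZero (kF k v) := charZero_of_injective_algebraMap (algebraMap k (kF k v)).injective
  have hE : ∀ i, Hm k E 1 (v i) := by
    intro i
    unfold Hm
    rw [hd.eul]
    simp
  have hinj : Function.Injective (aeval v : MvPolynomial (Fin n) k →ₐ[k] F) := hd.ind
  have hint : IsIntegral (kF k v) γ := Algebra.IsIntegral.isIntegral γ
  obtain ⟨P, hPdef⟩ : ∃ P : Polynomial (kF k v), P = minpoly (kF k v) γ := ⟨_, rfl⟩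
  obtain ⟨N, hN⟩ : ∃ N : ℕ, N = P.natDegree := ⟨_, rfl⟩
  have hN1 : 1 ≤ N := by
    rw [hN, hPdef]
    exact minpoly.natDegree_pos hint
  have hPm : P.Monic := by
    rw [hPdef]
    exact minpoly.monic hint
  have hPN : P.coeff N = 1 := by
    rw [hN]
    exact hPm.coeff_natDegree
  have hw : ∀ j ≤ N, Hm k E (((N - j) * e : ℕ) : ℤ) ((P.coeff j : kF k v) : F) := by
    intro j hj
    have h := h1 k F n d v E hd e γ hγ (N - j) (by rw [← hPdef, ← hN]; omega)
    rw [← hPdef, ← hN, Nat.sub_sub_self hj] at h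
    have h4 : ((N - j : ℕ) : ℤ) * (e : ℤ) = (((N - j) * e : ℕ) : ℤ) := by push_cast; ring
    rwa [h4] at h
  obtain ⟨_, h2b⟩ := h2 k F n v E hd.ind hd.eul
  -- fractions
  have hfrac : ∀ j, j ≤ N → ∃ (p q : MvPolynomial (Fin n) k), q ≠ 0 ∧ IsRelPrime p q ∧
      ((P.coeff j : kF k v) : F) * aeval v q = aeval v p ∧ (n = 1 → q ∣ p) := by
    intro j hj
    obtain ⟨e', h', p, q, hq0, hpq, hp, hq, hz, hdeg⟩ :=
      h2b (((N - j) * e : ℕ) : ℤ) ((P.coeff j : kF k v) : F) (P.coeff j).2 (hw j hj)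
    refine ⟨p, q, hq0, hpq, hz, fun hn1 => ?_⟩
    by_cases hp0 : p = 0
    · rw [hp0]
      exact dvd_zero q
    · have h5 := hdeg hp0
      have h6 : (0 : ℤ) ≤ (((N - j) * e : ℕ) : ℤ) := Int.natCast_nonneg _
      exact one_var_dvd hn1 hp hq hq0 (by omega)
  choose! p q hq0 hpq hz hone using hfrac
  have hex : ∃ H : MvPolynomial (Fin n) k, Den v N (fun j => ((P.coeff j : kF k v) : F)) H := by
    refine ⟨∏ j ∈ Finset.range (N + 1), q j, Finset.prod_ne_zero_iff.2 fun j hj =>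
      hq0 j (Nat.lt_succ_iff.1 (Finset.mem_range.1 hj)), fun j hj => ?_⟩
    have hj' : j ∈ Finset.range (N + 1) := Finset.mem_range.2 (by omega)
    refine ⟨p j * ∏ i ∈ (Finset.range (N + 1)).erase j, q i, ?_⟩
    rw [← Finset.mul_prod_erase _ _ hj', map_mul, map_mul, ← hz j hj]
    ring
  obtain ⟨h, H, hHh, hH, hmin⟩ := exists_min hE (fun j => (N - j) * e) hw hex
  choose! α hα' using hH.2
  have hα : ∀ j ≤ N, (aeval v (α j) : F) = aeval v H * ((P.coeff j : kF k v) : F) := hα'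
  have hαN : α N = H := by
    apply hinj
    rw [hα N le_rfl, hPN]
    simp
  -- in one variable there is no denominator
  have hunit : n = 1 → ∀ π : MvPolynomial (Fin n) k, Irreducible π → ¬ π ∣ H := by
    intro hn1 π hπ hπH
    have hone' : Den v N (fun j => ((P.coeff j : kF k v) : F)) (1 : MvPolynomial (Fin n) k) := by
      refine ⟨one_ne_zero, fun j hj => ?_⟩
      obtain ⟨r, hr⟩ := hone j hj hn1
      refine ⟨r, ?_⟩
      have hq1 : (aeval v (q j) : F) ≠ 0 := by
        intro h0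
        exact hq0 j hj (hinj (by rw [h0, map_zero]))
      apply mul_right_cancel₀ hq1
      rw [map_one, one_mul, hz j hj, hr, map_mul]
      ring
    have h5 := hmin _ hone'
    rw [totalDegree_one] at h5
    obtain ⟨r, hr⟩ := hπH
    have hr0 : r ≠ 0 := by
      rintro rfl
      exact hH.1 (by rw [hr, mul_zero])
    rw [hr, totalDegree_mul_of_isDomain hπ.ne_zero hr0] at h5
    exact irr_deg hπ (by omega)
  obtain ⟨l, hl, hl0, hlH⟩ : ∃ l : MvPolynomial (Fin n) k, l.IsHomogeneous 1 ∧ l ≠ 0 ∧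
      ∀ π : MvPolynomial (Fin n) k, Irreducible π → π ∣ H → ¬ π ∣ l := by
    rcases Nat.lt_or_ge 1 n with h5 | h5
    · exact lin_choice h5 hH.1
    · exact ⟨X ⟨0, by omega⟩, isHomogeneous_X _ _, X_ne_zero _, fun π hπ hπH =>
        absurd hπH (hunit (by omega) π hπ)⟩
  obtain ⟨b, hb⟩ : ∃ b : ℕ → MvPolynomial (Fin n) k,
      b = fun j => (-1) ^ (N + j) * α j * (l ^ e) ^ j := ⟨_, rfl⟩
  have hsgn : ∀ j : ℕ, IsUnit ((-1 : MvPolynomial (Fin n) k) ^ (N + j)) := fun j =>
    (isUnit_one.neg).pow _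
  obtain ⟨c, hA0, hrel⟩ := choose_c hH.1 N b (by
      refine ⟨N, le_rfl, ?_⟩
      rw [hb]
      simp only
      rw [hαN]
      exact mul_ne_zero (mul_ne_zero (hsgn N).ne_zero hH.1) (pow_ne_zero _ (pow_ne_zero _ hl0)))
    (by
      intro π hπ hπH
      obtain ⟨j, hj, hnd⟩ := no_common hH hmin α hα hinj hπ hπH
      refine ⟨j, hj, fun hdv => ?_⟩
      rw [hb] at hdv
      simp only at hdv
      have hpr : Prime π := hπ.prime
      rcases hpr.dvd_or_dvd hdv with h5 | h5
      · rcases hpr.dvd_or_dvd h5 with h6 | h6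
        · exact hπ.not_isUnit (isUnit_of_dvd_unit h6 (hsgn j))
        · exact hnd h6
      · exact hlH π hπ hπH (hpr.dvd_of_dvd_pow (hpr.dvd_of_dvd_pow h5)))
  obtain ⟨A, hA⟩ : ∃ A : MvPolynomial (Fin n) k,
      A = ∑ j ∈ Finset.range (N + 1), C c ^ j * b j := ⟨_, rfl⟩
  rw [← hA] at hA0 hrel
  obtain ⟨f, hf⟩ : ∃ f : MvPolynomial (Fin n) k, f = C c * l ^ e := ⟨_, rfl⟩
  have hfh : f.IsHomogeneous e := by
    rw [hf]
    have h5 := (hl.pow e).C_mul c
    rwa [one_mul] at h5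
  obtain ⟨g, hg⟩ : ∃ g : kF k v, (g : F) = aeval v f := by
    refine ⟨⟨aeval v f, ?_⟩, rfl⟩
    have h5 := Pool.Agent.H62.HIL.aeval_mem v f
    exact IntermediateField.algebra_adjoin_le_adjoin k _ h5
  -- the value of `A`
  have hAv : (aeval v A : F) = aeval v H *
      (((-1) ^ N * P.eval (-g) : kF k v) : F) := by
    have h5 : P.eval (-g) = ∑ j ∈ Finset.range (N + 1), P.coeff j * (-g) ^ j := by
      rw [Polynomial.eval_eq_sum_range, ← hN]
    rw [hA, h5, map_sum, Finset.mul_sum]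
    push_cast
    rw [Finset.mul_sum]
    refine Finset.sum_congr rfl fun j hj => ?_
    have hj' : j ≤ N := Nat.lt_succ_iff.1 (Finset.mem_range.1 hj)
    rw [hb, hg, hf]
    simp only [map_mul, map_pow, map_neg, map_one, hα j hj']
    rw [neg_pow (aeval v (C c) * aeval v l ^ e : F) j, mul_pow, pow_add]
    ring
  obtain ⟨m, hm1, hnorm⟩ := norm_shift γ g
  have hnorm' : ((Algebra.norm (kF k v) (aeval v f + γ) : kF k v) : F) * aeval v (H ^ m) =
      aeval v (A ^ m) := by
    have h5 : (algebraMap (kF k v) F g : F) = aeval v f := hg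
    rw [h5, ← hPdef, ← hN] at hnorm
    rw [hnorm, map_pow, map_pow, hAv]
    push_cast
    ring
  -- homogeneity of `A`
  have hAhm : Hm k E ((h + N * e : ℕ) : ℤ) (aeval v A) := by
    rw [hA, map_sum]
    refine Pool.Agent.H62.HIL.hm_sum _ _ fun j hj => ?_
    have hj' : j ≤ N := Nat.lt_succ_iff.1 (Finset.mem_range.1 hj)
    rw [hb]
    simp only [map_mul, map_pow, map_neg, map_one, hα j hj']
    have g1 : Hm k E (0 : ℤ) ((aeval v (C c) : F) ^ j) := by
      rw [aeval_C]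
      have h5 := Pool.Agent.H62.HIL.hm_pow (κ := k) (E := E)
        (Pool.Agent.H62.HIL.hm_algebraMap (κ := k) (F := F) (E := E) c) j
      rwa [mul_zero] at h5
    have g2 : Hm k E (0 : ℤ) ((-1 : F) ^ (N + j)) := by
      have h5 := Pool.Agent.H62.HIL.hm_pow (κ := k) (E := E)
        (Pool.Agent.H62.HIL.hm_neg (Pool.Agent.H62.HIL.hm_one (κ := k) (E := E))) (N + j)
      rwa [mul_zero] at h5
    have g3 := Pool.Agent.H62.HIL.hm_aeval hE hHh
    have g4 := hw j hj'
    have g5 : Hm k E ((j * e : ℕ) : ℤ) (((aeval v l : F) ^ e) ^ j) := by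
      have h5 := Pool.Agent.H62.HIL.hm_pow (Pool.Agent.H62.HIL.hm_pow
        (Pool.Agent.H62.HIL.hm_aeval hE hl) e) j
      have h6 : (j : ℤ) * ((e : ℤ) * ((1 : ℕ) : ℤ)) = ((j * e : ℕ) : ℤ) := by push_cast; ring
      rwa [h6] at h5
    have g6 := Pool.Agent.H62.HIL.hm_mul g1 (Pool.Agent.H62.HIL.hm_mul
      (Pool.Agent.H62.HIL.hm_mul g2 (Pool.Agent.H62.HIL.hm_mul g3 g4)) g5)
    have g7 : (0 : ℤ) + (0 + ((h : ℤ) + (((N - j) * e : ℕ) : ℤ)) + ((j * e : ℕ) : ℤ)) =
        ((h + N * e : ℕ) : ℤ) := by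
      have h8 : (N - j) * e + j * e = N * e := by
        rw [← Nat.add_mul, Nat.sub_add_cancel hj']
      push_cast [← h8]
      ring
    rw [g7] at g6
    exact g6
  obtain ⟨a, _, hAa⟩ := (h2 k F n v E hd.ind hd.eul).1 _ A hA0 hAhm
  -- integrality
  have hitg : Itg k v (aeval v H * γ) := by
    rw [Pool.Agent.H62.HIL.itg_iff]
    refine Pool.Agent.H62.HIL.itg_of_relation N
      (fun j => aeval v (H ^ (N - 1 - j) * α j)) (fun j _ => Pool.Agent.H62.HIL.itg_aeval v _) ?_
    have h5 : Polynomial.aeval γ P = 0 := by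
      rw [hPdef]
      exact minpoly.aeval _ _
    rw [Polynomial.aeval_eq_sum_range, ← hN, Finset.sum_range_succ, hPN, one_smul] at h5
    have h6 : (aeval v H : F) ^ N * (∑ j ∈ Finset.range N, P.coeff j • γ ^ j + γ ^ N) = 0 := by
      rw [h5, mul_zero]
    rw [← h6, mul_add, Finset.mul_sum, add_comm, mul_pow]
    congr 1
    refine Finset.sum_congr rfl fun j hj => ?_
    have hj' := Finset.mem_range.1 hj
    have e1 : N = (N - 1 - j) + 1 + j := by omega
    have e2 : (aeval v H : F) ^ N = aeval v H ^ (N - 1 - j) * aeval v H * aeval v H ^ j := by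
      conv_lhs => rw [e1]
      rw [pow_add, pow_succ]
    have e3 : P.coeff j • γ ^ j = ((P.coeff j : kF k v) : F) * γ ^ j := by
      rw [Algebra.smul_def]
      rfl
    rw [map_mul, map_pow, hα j hj'.le, e2, e3, mul_pow]
    ring
  obtain ⟨m', rfl⟩ : ∃ m', m = m' + 1 := ⟨m - 1, by omega⟩
  refine ⟨h * (m' + 1), a * (m' + 1), H ^ (m' + 1), A ^ (m' + 1), f, pow_ne_zero _ hH.1,
    hHh.pow _, ?_, hfh, pow_ne_zero _ hA0, hAa.pow _, hrel.pow, hnorm'⟩
  have h5 : (aeval v (H ^ (m' + 1)) : F) * γ = aeval v (H ^ m') * (aeval v H * γ) := by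
    rw [map_pow, map_pow, pow_succ]
    ring
  rw [h5, Pool.Agent.H62.HIL.itg_iff]
  exact (Pool.Agent.H62.HIL.itg_aeval v _).mul (Pool.Agent.H62.HIL.itg_iff.1 hitg)

end Pool.Agent.H30.SFH
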