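import Pool.Agent.H62.HIL.Tg
import Pool.Agent.H62.HIL.Norm

/-!
# MP_70ba79_ag, THEOREM S, row NRM: divisibility of norms
-/

set_option autoImplicit false

open MvPolynomial SC Pool.Agent.H27.LV Pool.Agent.H92.SF Pool.Agent.H3.SF
open scoped IntermediateField.algebraAdjoinAdjoin

namespace Pool.Agent.H30.SFH

theorem fd_of_hd {k F : Type} [Field k] [Field F] [Algebra k F] {n d : ℕ} {v : Fin n → F}
    {E : Derivation k F F} (h : Hd k v E d) : FiniteDimensional (kF k v) F :=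
  FiniteDimensional.of_finrank_pos (by rw [h.deg]; exact h.pos)

theorem pf_NRM : T_NRM := by
  intro k F _ _ _ _ n d v E hd r b ω A H B hint hω hrel hb
  have hfd := fd_of_hd hd
  have hufd := Pool.Agent.H62.HIL.ufd hd.ind
  have h0 : IsIntegral (Algebra.adjoin k (Set.range v)) (b * ω ^ r) :=
    Pool.Agent.H62.HIL.itg_iff.1 hint
  have h1 : IsIntegral (Algebra.adjoin k (Set.range v)) (Algebra.norm (kF k v) (b * ω ^ r)) :=
    Algebra.isIntegral_norm (kF k v) h0
  obtain ⟨y, hy⟩ := IsIntegrallyClosed.isIntegral_iff.1 h1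
  obtain ⟨z, hz⟩ : ∃ z : F, z = y := ⟨_, rfl⟩
  have hy2 : z ∈ Algebra.adjoin k (Set.range v) := by
    rw [hz]
    exact y.2
  rw [Algebra.adjoin_range_eq_range_aeval] at hy2
  obtain ⟨Q, hQ⟩ := hy2
  have hQ' : (aeval v Q : F) = y := by
    rw [← hz]
    exact hQ
  have hy3 : ((Algebra.norm (kF k v) (b * ω ^ r) : kF k v) : F) = aeval v Q := by
    rw [hQ', ← hy]
    rfl
  have h2 : aeval v (Q * H ^ r) = aeval v (B * A ^ r) := by
    rw [map_mul, map_pow, map_mul, map_pow, ← hy3, ← hω, ← hb, map_mul, map_pow]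
    push_cast
    ring
  have h3 : Q * H ^ r = B * A ^ r := hd.ind h2
  exact (hrel.symm.pow (m := r) (n := r)).dvd_of_dvd_mul_right ⟨Q, by rw [← h3, mul_comm]⟩

end Pool.Agent.H30.SFH
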