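import Pool.Agent.H30.SFH.NRM

/-!
# MP_70ba79_ag, THEOREM S, row DEN: preparations
-/

set_option autoImplicit false

open MvPolynomial SC Pool.Agent.H27.LV Pool.Agent.H92.SF Pool.Agent.H3.SF

namespace Pool.Agent.H30.SFH

section comp

variable {k F : Type} [Field k] [CharZero k] [Field F] [Algebra k F]

/-- components of a relation `α = H z` with `z` homogeneous of degree `w` -/
theorem comp_den {n : ℕ} {v : Fin n → F} {E : Derivation k F F} (hE : ∀ i, Hm k E 1 (v i))
    {w : ℕ} {z : F} (hz : Hm k E w z) {H α : MvPolynomial (Fin n) k}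
    (h : aeval v α = aeval v H * z) (t : ℕ) :
    aeval v (homogeneousComponent (t + w) α) = aeval v (homogeneousComponent t H) * z := by
  classical
  have hF : CharZero F := charZero_of_injective_algebraMap (algebraMap k F).injective
  obtain ⟨N, hN⟩ : ∃ N : ℕ, N = H.totalDegree + α.totalDegree + t := ⟨_, rfl⟩
  have hα : ∑ s ∈ Finset.range (w + (N + 1)), homogeneousComponent s α = α := by
    have h1 := Pool.Agent.H62.HIL.sum_comp α (w + N) (by omega)
    rwa [add_assoc] at h1
  have hH : ∑ s ∈ Finset.range (N + 1), homogeneousComponent s H = H :=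
    Pool.Agent.H62.HIL.sum_comp H N (by omega)
  set y : ℕ → F := fun s => aeval v (homogeneousComponent s α) -
    (if w ≤ s then aeval v (homogeneousComponent (s - w) H) * z else 0) with hy
  have hsum : ∑ s ∈ Finset.range (w + (N + 1)), y s = 0 := by
    rw [hy, Finset.sum_sub_distrib, ← map_sum, hα, Finset.sum_range_add]
    have e1 : ∑ x ∈ Finset.range w,
        (if w ≤ x then aeval v (homogeneousComponent (x - w) H) * z else 0) = 0 := by
      refine Finset.sum_eq_zero fun x hx => ?_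
      rw [if_neg]
      have := Finset.mem_range.1 hx
      omega
    have e2 : ∑ x ∈ Finset.range (N + 1),
        (if w ≤ w + x then aeval v (homogeneousComponent (w + x - w) H) * z else 0) =
        aeval v H * z := by
      have e3 : ∀ x, (if w ≤ w + x then aeval v (homogeneousComponent (w + x - w) H) * z
          else 0) = aeval v (homogeneousComponent x H) * z := by
        intro x
        rw [if_pos (Nat.le_add_right w x), Nat.add_sub_cancel_left]
      simp only [e3]
      rw [← Finset.sum_mul, ← map_sum, hH]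
    rw [e1, e2, h, zero_add, sub_self]
  have hhm : ∀ s ∈ Finset.range (w + (N + 1)), Hm k E ((s : ℕ) : ℤ) (y s) := by
    intro s _
    refine Pool.Agent.H62.HIL.hm_sub
      (Pool.Agent.H62.HIL.hm_aeval hE (homogeneousComponent_isHomogeneous s α)) ?_
    split_ifs with hws
    · have h1 := Pool.Agent.H62.HIL.hm_mul
        (Pool.Agent.H62.HIL.hm_aeval hE (homogeneousComponent_isHomogeneous (s - w) H)) hz
      have h2 : ((s - w : ℕ) : ℤ) + (w : ℤ) = (s : ℤ) := by omega
      rwa [h2] at h1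
    · exact Pool.Agent.H62.HIL.hm_zero _
  have h0 := Pool.Agent.H62.HIL.hm_sum_eq_zero (κ := k) (E := E)
    (Finset.range (w + (N + 1))) (fun s => ((s : ℕ) : ℤ))
    (fun a _ b _ hab => by simpa using hab) y hhm hsum (t + w)
    (Finset.mem_range.2 (by omega))
  simp only [hy] at h0
  rw [if_pos (Nat.le_add_left w t), Nat.add_sub_cancel] at h0
  exact sub_eq_zero.1 h0

/-- common denominators of `P 0, …, P m` -/
def Den {n : ℕ} (v : Fin n → F) (m : ℕ) (P : ℕ → F) (H : MvPolynomial (Fin n) k) : Prop :=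
  H ≠ 0 ∧ ∀ j ≤ m, ∃ α : MvPolynomial (Fin n) k, aeval v α = aeval v H * P j

/-- a homogeneous common denominator of least degree -/
theorem exists_min {n : ℕ} {v : Fin n → F} {E : Derivation k F F} (hE : ∀ i, Hm k E 1 (v i))
    {m : ℕ} {P : ℕ → F} (w : ℕ → ℕ) (hP : ∀ j ≤ m, Hm k E (w j) (P j))
    (hex : ∃ H : MvPolynomial (Fin n) k, Den v m P H) :
    ∃ (h : ℕ) (H : MvPolynomial (Fin n) k), H.IsHomogeneous h ∧ Den v m P H ∧
      ∀ H' : MvPolynomial (Fin n) k, Den v m P H' → H.totalDegree ≤ H'.totalDegree := by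
  classical
  obtain ⟨H, hH, hmin⟩ : ∃ H : MvPolynomial (Fin n) k, Den v m P H ∧
      ∀ H' : MvPolynomial (Fin n) k, Den v m P H' → H.totalDegree ≤ H'.totalDegree := by
    have hne : {H : MvPolynomial (Fin n) k | Den v m P H}.Nonempty := hex
    obtain ⟨H, hH, h1⟩ := WellFounded.has_min
      (measure (fun H : MvPolynomial (Fin n) k => H.totalDegree)).wf _ hne
    refine ⟨H, hH, fun H' hH' => ?_⟩
    exact not_lt.1 (h1 H' hH')
  have h2 : ∃ t ∈ Finset.range (H.totalDegree + 1), homogeneousComponent t H ≠ 0 := by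
    by_contra hcon
    push Not at hcon
    apply hH.1
    rw [← sum_homogeneousComponent H]
    exact Finset.sum_eq_zero hcon
  obtain ⟨t, ht, ht0⟩ := h2
  have ht' := Finset.mem_range.1 ht
  refine ⟨t, homogeneousComponent t H, homogeneousComponent_isHomogeneous t H, ⟨ht0, ?_⟩, ?_⟩
  · intro j hj
    obtain ⟨α, hα⟩ := hH.2 j hj
    exact ⟨homogeneousComponent (t + w j) α, comp_den hE (hP j hj) hα t⟩
  · intro H' hH'
    have h3 : (homogeneousComponent t H).totalDegree ≤ t :=
      (homogeneousComponent_isHomogeneous t H).totalDegree_le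
    have h4 := hmin H' hH'
    omega

/-- a common factor contradicts the minimality -/
theorem no_common {n : ℕ} {v : Fin n → F} {m : ℕ} {P : ℕ → F} {H : MvPolynomial (Fin n) k}
    (hH : Den v m P H)
    (hmin : ∀ H' : MvPolynomial (Fin n) k, Den v m P H' → H.totalDegree ≤ H'.totalDegree)
    (α : ℕ → MvPolynomial (Fin n) k) (hα : ∀ j ≤ m, aeval v (α j) = aeval v H * P j)
    (hv : Function.Injective (aeval v : MvPolynomial (Fin n) k →ₐ[k] F))
    {π : MvPolynomial (Fin n) k} (hπ : Irreducible π) (hd : π ∣ H) : ∃ j ≤ m, ¬ π ∣ α j := by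
  by_contra hcon
  push Not at hcon
  obtain ⟨H', hH'⟩ := hd
  have hH'0 : H' ≠ 0 := by
    rintro rfl
    exact hH.1 (by rw [hH', mul_zero])
  have hπ0 : π ≠ 0 := hπ.ne_zero
  have hπv : (aeval v π : F) ≠ 0 := by
    intro h0
    exact hπ0 (hv (by rw [h0, map_zero]))
  have h1 : Den v m P H' := by
    refine ⟨hH'0, fun j hj => ?_⟩
    obtain ⟨β, hβ⟩ := hcon j hj
    refine ⟨β, ?_⟩
    apply mul_left_cancel₀ hπv
    rw [← map_mul, ← hβ, hα j hj, hH', map_mul]
    ring
  have h2 := hmin H' h1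
  rw [hH', totalDegree_mul_of_isDomain hπ0 hH'0] at h2
  have h3 : π.totalDegree = 0 := by omega
  rw [totalDegree_eq_zero_iff_eq_C] at h3
  apply hπ.not_isUnit
  rw [h3]
  have h4 : coeff 0 π ≠ 0 := by
    intro h0
    rw [h0, C_0] at h3
    exact hπ0 h3
  exact (IsUnit.mk0 _ h4).map C

end comp

section choice

variable {k : Type} [Field k]

theorem irr_deg {n : ℕ} {π : MvPolynomial (Fin n) k} (hπ : Irreducible π) :
    π.totalDegree ≠ 0 := by
  intro h3
  rw [totalDegree_eq_zero_iff_eq_C] at h3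
  apply hπ.not_isUnit
  rw [h3]
  have h4 : coeff 0 π ≠ 0 := by
    intro h0
    rw [h0, C_0] at h3
    exact hπ.ne_zero h3
  exact (IsUnit.mk0 _ h4).map C

/-- a linear form which is prime to `H` -/
theorem lin_choice [Infinite k] {n : ℕ} (hn : 2 ≤ n) {H : MvPolynomial (Fin n) k} (hH : H ≠ 0) :
    ∃ l : MvPolynomial (Fin n) k, l.IsHomogeneous 1 ∧ l ≠ 0 ∧
      ∀ π : MvPolynomial (Fin n) k, Irreducible π → π ∣ H → ¬ π ∣ l := by
  classical
  obtain ⟨x, hx⟩ : ∃ x : Fin n → k, eval x H ≠ 0 := by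
    by_contra hcon
    push Not at hcon
    apply hH
    apply MvPolynomial.funext
    intro x
    rw [hcon x, map_zero]
  obtain ⟨i0, i1, hi⟩ : ∃ i0 i1 : Fin n, i0 ≠ i1 :=
    ⟨⟨0, by omega⟩, ⟨1, by omega⟩, by simp [Fin.ext_iff]⟩
  obtain ⟨l, hl, hl0, hlx⟩ : ∃ l : MvPolynomial (Fin n) k, l.IsHomogeneous 1 ∧ l ≠ 0 ∧
      eval x l = 0 := by
    by_cases h0 : x i0 = 0
    · exact ⟨X i0, isHomogeneous_X _ _, X_ne_zero i0, by rw [eval_X, h0]⟩
    · refine ⟨C (x i1) * X i0 - C (x i0) * X i1, ?_, ?_, ?_⟩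
      · exact ((isHomogeneous_X k i0).C_mul (x i1)).sub ((isHomogeneous_X k i1).C_mul (x i0))
      · intro h1
        have h2 := congrArg (eval (Pi.single i1 (1 : k))) h1
        simp only [map_sub, map_mul, eval_C, eval_X, map_zero, Pi.single_eq_same,
          Pi.single_eq_of_ne hi] at h2
        apply h0
        linear_combination -h2
      · simp only [map_sub, map_mul, eval_C, eval_X]
        ring
  refine ⟨l, hl, hl0, fun π hπ hπH hπl => ?_⟩
  obtain ⟨s, hs⟩ := hπl
  have hs0 : s ≠ 0 := by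
    rintro rfl
    exact hl0 (by rw [hs, mul_zero])
  have h1 : l.totalDegree = 1 := hl.totalDegree hl0
  rw [hs, totalDegree_mul_of_isDomain hπ.ne_zero hs0] at h1
  have h2 := irr_deg hπ
  have h3 : s.totalDegree = 0 := by omega
  rw [totalDegree_eq_zero_iff_eq_C] at h3
  have h4 : coeff 0 s ≠ 0 := by
    intro h0
    rw [h0, C_0] at h3
    exact hs0 h3
  have h5 : eval x π = 0 := by
    have h6 := hlx
    rw [hs, h3, map_mul, eval_C] at h6
    exact (mul_eq_zero.1 h6).resolve_right h4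
  obtain ⟨r, hr⟩ := hπH
  apply hx
  rw [hr, map_mul, h5, zero_mul]

/-- only finitely many values are bad -/
theorem fin_bad {n : ℕ} (p : Ideal (MvPolynomial (Fin n) k)) [hp : p.IsPrime] (N : ℕ)
    (b : ℕ → MvPolynomial (Fin n) k) (hb : ∃ j ≤ N, b j ∉ p) :
    {c : k | ∑ j ∈ Finset.range (N + 1), C c ^ j * b j ∈ p}.Finite := by
  classical
  set R := MvPolynomial (Fin n) k ⧸ p with hR
  set q : Polynomial R := ∑ j ∈ Finset.range (N + 1),
    Polynomial.monomial j (Ideal.Quotient.mk p (b j)) with hq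
  have hco : ∀ j ≤ N, q.coeff j = Ideal.Quotient.mk p (b j) := by
    intro j hj
    rw [hq, Polynomial.finsetSum_coeff]
    simp only [Polynomial.coeff_monomial]
    rw [Finset.sum_ite_eq' (Finset.range (N + 1)) j, if_pos (Finset.mem_range.2 (by omega))]
  have hq0 : q ≠ 0 := by
    obtain ⟨j, hj, hbj⟩ := hb
    intro h0
    apply hbj
    rw [← Ideal.Quotient.eq_zero_iff_mem, ← hco j hj, h0, Polynomial.coeff_zero]
  have hinj : Function.Injective (algebraMap k R) := (algebraMap k R).injective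
  refine ((q.roots.toFinset.finite_toSet).preimage (f := algebraMap k R)
    (hinj.injOn)).subset ?_
  intro c hc
  rw [Set.mem_preimage, Finset.mem_coe, Multiset.mem_toFinset, Polynomial.mem_roots hq0,
    Polynomial.IsRoot.def, hq, Polynomial.eval_finsetSum]
  simp only [Polynomial.eval_monomial]
  have h1 : (Ideal.Quotient.mk p (∑ j ∈ Finset.range (N + 1), C c ^ j * b j)) = 0 :=
    Ideal.Quotient.eq_zero_iff_mem.2 hc
  rw [← h1, map_sum]
  refine Finset.sum_congr rfl fun j _ => ?_
  rw [map_mul, map_pow, mul_comm]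
  rfl

/-- the choice of the value: `A` is coprime to `H` -/
theorem choose_c [Infinite k] {n : ℕ} {H : MvPolynomial (Fin n) k} (hH : H ≠ 0) (N : ℕ)
    (b : ℕ → MvPolynomial (Fin n) k) (hb0 : ∃ j ≤ N, b j ≠ 0)
    (hb : ∀ π, Irreducible π → π ∣ H → ∃ j ≤ N, ¬ π ∣ b j) :
    ∃ c : k, (∑ j ∈ Finset.range (N + 1), C c ^ j * b j) ≠ 0 ∧
      IsRelPrime (∑ j ∈ Finset.range (N + 1), C c ^ j * b j) H := by
  classical
  have f0 : {c : k | ∑ j ∈ Finset.range (N + 1), C c ^ j * b j ∈
      (⊥ : Ideal (MvPolynomial (Fin n) k))}.Finite := by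
    apply fin_bad
    obtain ⟨j, hj, h⟩ := hb0
    exact ⟨j, hj, fun h1 => h (Ideal.mem_bot.1 h1)⟩
  have f1 : (⋃ π ∈ (UniqueFactorizationMonoid.factors H).toFinset,
      {c : k | ∑ j ∈ Finset.range (N + 1), C c ^ j * b j ∈ Ideal.span {π}}).Finite := by
    refine Set.Finite.biUnion (Finset.finite_toSet _) fun π hπ => ?_
    have hπ' : π ∈ UniqueFactorizationMonoid.factors H := Multiset.mem_toFinset.1 hπ
    have hpr : Prime π := UniqueFactorizationMonoid.prime_of_factor π hπ'
    have hdv : π ∣ H := UniqueFactorizationMonoid.dvd_of_mem_factors hπ'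
    have : (Ideal.span {π}).IsPrime := (Ideal.span_singleton_prime hpr.ne_zero).2 hpr
    apply fin_bad
    obtain ⟨j, hj, h⟩ := hb π hpr.irreducible hdv
    exact ⟨j, hj, fun h1 => h (Ideal.mem_span_singleton.1 h1)⟩
  obtain ⟨c, hc⟩ := (f0.union f1).infinite_compl.nonempty
  rw [Set.mem_compl_iff, Set.mem_union, not_or] at hc
  have hA0 : (∑ j ∈ Finset.range (N + 1), C c ^ j * b j) ≠ 0 := by
    intro h0
    apply hc.1
    change ∑ j ∈ Finset.range (N + 1), C c ^ j * b j ∈ (⊥ : Ideal _)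
    rw [h0]
    exact Ideal.zero_mem _
  refine ⟨c, hA0, ?_⟩
  rw [UniqueFactorizationMonoid.isRelPrime_iff_no_prime_factors hA0]
  intro π hπA hπH hπ
  obtain ⟨q, hq, hass⟩ := UniqueFactorizationMonoid.exists_mem_factors_of_dvd hH
    hπ.irreducible hπH
  apply hc.2
  simp only [Set.mem_iUnion]
  refine ⟨q, Multiset.mem_toFinset.2 hq, ?_⟩
  exact Ideal.mem_span_singleton.2 (hass.symm.dvd.trans hπA)

end choice

end Pool.Agent.H30.SFH
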